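import Pool.Agent.Lib.MP_c88ce3_co.Final

set_option autoImplicit false

namespace Pool.Agent.Results.MP_c88ce3_co.NearHamiltonian

open Pool.Agent.Lib.MP_c88ce3_co

theorem result (ε : ℝ) (hε : 0 < ε) : ∃ d0 : ℕ, ∀ d : ℕ, d0 ≤ d →
    ∃ M : Fin d → (cube d).Subgraph, (∀ i, (M i).IsPerfectMatching) ∧
      (∀ e ∈ (cube d).edgeSet, ∃! i, e ∈ (M i).edgeSet) ∧
      ∀ i j, i ≠ j → ∃ (v : Fin d → Bool) (p : (M i ⊔ M j).spanningCoe.Walk v v),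
        p.IsCycle ∧ (1 - ε) * (2 : ℝ) ^ d ≤ p.length :=
  final hε

end Pool.Agent.Results.MP_c88ce3_co.NearHamiltonian
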